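import Pool.Agent.Lib.MP_3930bf_lc.Compl

namespace Pool.Agent.Results.MP_3930bf_lc.Completion

open Pool.Agent.Lib.MP_3930bf_lc

theorem result :
    ∃ f : ℕ → Fm → Inst,
      (∀ r, Nonempty (Turing.TM2ComputableInPolyTime encFm encInst (f r))) ∧
      (∀ r φ, (f r φ).r = r ∧ (∀ i j q, (f r φ).entry i j = Sum.inl q → q = 0 ∨ q = 1) ∧
        (∀ i j i' j' n, (f r φ).entry i j = Sum.inr n → (f r φ).entry i' j' = Sum.inr n →
          i = i' ∧ j = j') ∧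
        ((∃ y : ℕ → ℝ, φ.Holds y) → (f r φ).mr ≤ r) ∧
        ((¬ ∃ y : ℕ → ℝ, φ.Holds y) → 2 * r ≤ (f r φ).mr + 2 * Nat.clog 2 r + 2)) ∧
      ∀ ε : ℝ, ε < 1 → ∃ r₀ : ℕ, ∀ r, r₀ ≤ r → ∀ φ : Fm, (¬ ∃ y : ℕ → ℝ, φ.Holds y) →
        (1 + ε) * (r : ℝ) < ((f r φ).mr : ℝ) := by
  choose f hf h using fun r => C91.main r (Nat.clog 2 r) (Nat.le_pow_clog one_lt_two r)
  refine ⟨f, hf, h, fun ε hε => ?_⟩
  have he : 0 < 1 - ε := by linarith
  obtain ⟨K, hK⟩ : ∃ K : ℕ, 1 ≤ (K : ℝ) * (1 - ε) :=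
    ⟨⌈1 / (1 - ε)⌉₊, (div_le_iff₀ he).1 (Nat.le_ceil _)⟩
  refine ⟨K * (6 * K + 12) + 2, fun r hr φ hφ => ?_⟩
  have h1 := (h r φ).2.2.2.2 hφ
  have h2 := Nat.pow_pred_clog_lt_self one_lt_two (show 1 < r by omega)
  have h3 := Nat.clog_pos one_lt_two (show 1 < r by omega)
  obtain ⟨t, ht⟩ : ∃ t, Nat.clog 2 r = t + 1 := ⟨Nat.clog 2 r - 1, by omega⟩
  rw [ht] at h1 h2
  simp only [Nat.pred_succ] at h2
  have h4 : ∀ s, 4 ≤ s → s * s ≤ 2 ^ s := fun s hs => by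
    induction s, hs using Nat.le_induction with
    | base => norm_num
    | succ s hs ih => rw [pow_succ]; nlinarith
  have h5 : K * (2 * t + 4) < r := by
    by_cases h6 : t ≤ 3 * K + 4
    · have := Nat.mul_le_mul_left K (show 2 * t + 4 ≤ 6 * K + 12 by omega)
      omega
    · have h7 := h4 t (by omega)
      have h8 := Nat.mul_le_mul_left K (show 2 * t + 4 ≤ 3 * t by omega)
      have h9 := Nat.mul_le_mul_right t (show 3 * K ≤ t by omega)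
      nlinarith
  have h6 : (K : ℝ) * (2 * t + 4) < r := by exact_mod_cast h5
  have h7 : 2 * (r : ℝ) ≤ (f r φ).mr + 2 * (t + 1) + 2 := by exact_mod_cast h1
  have h8 : (0 : ℝ) ≤ 2 * t + 4 := by positivity
  nlinarith [mul_le_mul_of_nonneg_right hK h8, mul_lt_mul_of_pos_right h6 he]

end Pool.Agent.Results.MP_3930bf_lc.Completion
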