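import Pool.Agent.Lib.MP_3930bf_lc.Mat

namespace Pool.Agent.Results.MP_3930bf_lc.GapHard

open Pool.Agent.Lib.MP_3930bf_lc

theorem result (ε : ℝ) (hε : ε < 1) (k : ℕ) (hk : 1 ≤ k) :
    ∃ f : Fm → Inst, Nonempty (Turing.TM2ComputableInPolyTime encFm encInst f) ∧
      ∀ φ : Fm, (f φ).r = 4 * k ∧
        ((∃ y : ℕ → ℝ, φ.Holds y) → (f φ).mr ≤ (f φ).r) ∧
        ((¬ ∃ y : ℕ → ℝ, φ.Holds y) → (1 + ε) * ((f φ).r : ℝ) < ((f φ).mr : ℝ)) := by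
  obtain ⟨f, hf, h⟩ := main k
  refine ⟨f, hf, fun φ => ⟨(h φ).1, fun hy => (h φ).1 ▸ (h φ).2.1 hy, fun hn => ?_⟩⟩
  have h1 : ((8 * k : ℕ) : ℝ) ≤ ((f φ).mr : ℝ) := Nat.cast_le.2 ((h φ).2.2 hn)
  have h2 : (1 : ℝ) ≤ k := Nat.one_le_cast.2 hk
  rw [(h φ).1]
  push_cast at h1 ⊢
  nlinarith

end Pool.Agent.Results.MP_3930bf_lc.GapHard
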