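import Pool.Agent.Lib.MP_3930bf_lc.Toep

namespace Pool.Agent.Results.MP_3930bf_lc.HalfVsFull

open Pool.Agent.Lib.MP_3930bf_lc

theorem result (ε δ : ℝ) (hε : ε < 1) (hδ : 0 < δ) :
    ∃ f : Fm → Inst, Nonempty (Turing.TM2ComputableInPolyTime encFm encInst f) ∧
      ∀ φ : Fm, 1 ≤ (f φ).r ∧ (f φ).size = 2 * (f φ).r ∧
        (∀ i j q, (f φ).entry i j = Sum.inl q → q = 0 ∨ q = 1) ∧
        ((∃ y : ℕ → ℝ, φ.Holds y) → (f φ).mr ≤ (f φ).r) ∧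
        ((¬ ∃ y : ℕ → ℝ, φ.Holds y) → (1 + ε) * ((f φ).r : ℝ) < ((f φ).mr : ℝ) ∧
          ((f φ).size : ℝ) - ((f φ).size : ℝ) ^ δ ≤ ((f φ).mr : ℝ)) := by
  obtain ⟨f, hf, h⟩ := T91.main2 (⌈1 / (1 - ε)⌉₊ + 1) ⌈1 / δ⌉₊
  refine ⟨f, hf, fun φ => ?_⟩
  obtain ⟨n, hn, hr, hs, hc, hy, hno⟩ := h φ
  have hd : ⌈1 / δ⌉₊ ≠ 0 := (Nat.ceil_pos.2 (by positivity)).ne'
  have hn' : (1 : ℝ) ≤ n := Nat.one_le_cast.2 hn
  have hp : (n : ℝ) ≤ (n : ℝ) ^ ⌈1 / δ⌉₊ := le_self_pow₀ hn' hd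
  have hr' : ((f φ).r : ℝ) = ((⌈1 / (1 - ε)⌉₊ : ℝ) + 1) * (n : ℝ) ^ ⌈1 / δ⌉₊ := by
    rw [hr]; push_cast; rfl
  have hK0 : (0 : ℝ) ≤ ⌈1 / (1 - ε)⌉₊ := Nat.cast_nonneg _
  refine ⟨?_, hs, hc, hy, fun hφ => ?_⟩
  · rw [hr]
    exact Nat.mul_pos (Nat.succ_pos _) (Nat.pow_pos hn)
  have h1 : 2 * ((f φ).r : ℝ) ≤ (f φ).mr + n := by exact_mod_cast hno hφ
  have he : 0 < 1 - ε := by linarith
  constructor
  · have hK : 1 ≤ (⌈1 / (1 - ε)⌉₊ : ℝ) * (1 - ε) := (div_le_iff₀ he).1 (Nat.le_ceil _)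
    have h2 : (n : ℝ) < (1 - ε) * (f φ).r := by
      rw [hr']
      nlinarith [mul_le_mul_of_nonneg_right hK (zero_le_one.trans (hn'.trans hp)),
        mul_pos he (zero_lt_one.trans_le (hn'.trans hp))]
    linarith
  · have hs' : ((f φ).size : ℝ) = 2 * (f φ).r := by exact_mod_cast hs
    have h2 : (n : ℝ) ^ ⌈1 / δ⌉₊ ≤ (f φ).size := by
      rw [hs', hr']
      nlinarith [mul_nonneg hK0 (zero_le_one.trans (hn'.trans hp))]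
    have h3 : (n : ℝ) ≤ ((n : ℝ) ^ ⌈1 / δ⌉₊) ^ δ := by
      rw [← Real.rpow_natCast, ← Real.rpow_mul (by positivity)]
      exact Real.self_le_rpow_of_one_le hn' ((div_le_iff₀ hδ).1 (Nat.le_ceil _))
    have h4 := Real.rpow_le_rpow (by positivity) h2 hδ.le
    linarith

end Pool.Agent.Results.MP_3930bf_lc.HalfVsFull
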